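import Mathlib
import Pool.Agent.Block637.Core

/-!
# Counting words avoiding turns
-/

set_option autoImplicit false

namespace Pool.Agent.Block637

open FreeGroup Finset

section Chains

variable {L : Type*} [Fintype L] [DecidableEq L]

/-- the lists `l` of length `n` such that `z :: l` is a chain for `R` -/
def chF (R : L → L → Prop) [DecidableRel R] : ℕ → L → Finset (List L)
  | 0, _ => {[]}
  | n + 1, z => (univ.filter (fun z' => R z z')).biUnion
      (fun z' => (chF R n z').image (List.cons z'))

lemma mem_chF (R : L → L → Prop) [DecidableRel R] (n : ℕ) (z : L) (l : List L) :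
    l ∈ chF R n z ↔ l.length = n ∧ List.IsChain R (z :: l) := by
  induction n generalizing z l with
  | zero =>
    constructor
    · intro h
      simp only [chF, Finset.mem_singleton] at h
      subst h
      simp
    · rintro ⟨h, -⟩
      simp only [chF, Finset.mem_singleton]
      exact List.length_eq_zero_iff.mp h
  | succ n ih =>
    simp only [chF, Finset.mem_biUnion, Finset.mem_filter, Finset.mem_univ, true_and,
      Finset.mem_image]
    constructor
    · rintro ⟨z', hz', l', hl', rfl⟩
      rw [ih] at hl'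
      refine ⟨by simp [hl'.1], ?_⟩
      rw [List.isChain_cons_cons]
      exact ⟨hz', hl'.2⟩
    · rintro ⟨h1, h2⟩
      cases l with
      | nil => simp at h1
      | cons z' l' =>
        rw [List.isChain_cons_cons] at h2
        exact ⟨z', h2.1, l', (ih z' l').mpr ⟨by simpa using h1, h2.2⟩, rfl⟩

lemma chF_card_le (R : L → L → Prop) [DecidableRel R] (f : L → ℝ) (lam m : ℝ)
    (hf : ∀ z, m ≤ f z) (hlam : 0 ≤ lam)
    (hR : ∀ z, ∑ z' ∈ univ.filter (fun z' => R z z'), f z' ≤ lam * f z) (n : ℕ) (z : L) :
    ((chF R n z).card : ℝ) * m ≤ lam ^ n * f z := by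
  induction n generalizing z with
  | zero => simpa [chF] using hf z
  | succ n ih =>
    by_cases hm : 0 ≤ m
    · have h1 : ((chF R (n + 1) z).card : ℝ) ≤
          ∑ z' ∈ univ.filter (fun z' => R z z'), ((chF R n z').card : ℝ) := by
        have h2 : (chF R (n + 1) z).card ≤
            ∑ z' ∈ univ.filter (fun z' => R z z'), ((chF R n z').image (List.cons z')).card :=
          Finset.card_biUnion_le
        have h3 : ∑ z' ∈ univ.filter (fun z' => R z z'), ((chF R n z').image (List.cons z')).card
            ≤ ∑ z' ∈ univ.filter (fun z' => R z z'), (chF R n z').card :=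
          Finset.sum_le_sum fun z' _ => Finset.card_image_le
        exact_mod_cast h2.trans h3
      calc ((chF R (n + 1) z).card : ℝ) * m
          ≤ (∑ z' ∈ univ.filter (fun z' => R z z'), ((chF R n z').card : ℝ)) * m :=
            mul_le_mul_of_nonneg_right h1 hm
        _ = ∑ z' ∈ univ.filter (fun z' => R z z'), ((chF R n z').card : ℝ) * m := by
            rw [Finset.sum_mul]
        _ ≤ ∑ z' ∈ univ.filter (fun z' => R z z'), lam ^ n * f z' :=
            Finset.sum_le_sum fun z' _ => ih z'
        _ = lam ^ n * ∑ z' ∈ univ.filter (fun z' => R z z'), f z' := by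
            rw [Finset.mul_sum]
        _ ≤ lam ^ n * (lam * f z) := mul_le_mul_of_nonneg_left (hR z) (pow_nonneg hlam n)
        _ = lam ^ (n + 1) * f z := by ring
    · push Not at hm
      have hz := hR z
      have h0 : ((chF R (n + 1) z).card : ℝ) * m ≤ 0 :=
        mul_nonpos_of_nonneg_of_nonpos (Nat.cast_nonneg _) hm.le
      by_cases hz0 : 0 ≤ f z
      · exact h0.trans (mul_nonneg (pow_nonneg hlam _) hz0)
      · -- only used for m > 0, but the statement is still true
        push Not at hz0
        have h1 : ((chF R (n + 1) z).card : ℝ) ≤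
            ∑ z' ∈ univ.filter (fun z' => R z z'), ((chF R n z').card : ℝ) := by
          have h2 : (chF R (n + 1) z).card ≤
              ∑ z' ∈ univ.filter (fun z' => R z z'),
                ((chF R n z').image (List.cons z')).card := Finset.card_biUnion_le
          have h3 : ∑ z' ∈ univ.filter (fun z' => R z z'),
              ((chF R n z').image (List.cons z')).card
              ≤ ∑ z' ∈ univ.filter (fun z' => R z z'), (chF R n z').card :=
            Finset.sum_le_sum fun z' _ => Finset.card_image_le
          exact_mod_cast h2.trans h3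
        have h1' : ((chF R (n + 1) z).card : ℝ) =
            ∑ z' ∈ univ.filter (fun z' => R z z'), ((chF R n z').card : ℝ) := by
          have h2 : (chF R (n + 1) z).card =
              ∑ z' ∈ univ.filter (fun z' => R z z'),
                ((chF R n z').image (List.cons z')).card := by
            apply Finset.card_biUnion
            intro x _ y _ hxy
            rw [Function.onFun, Finset.disjoint_left]
            intro l hl hl'
            rw [Finset.mem_image] at hl hl'
            obtain ⟨a, -, rfl⟩ := hl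
            obtain ⟨b, -, hb⟩ := hl'
            exact hxy (by simpa using (congrArg List.head? hb).symm)
          rw [h2]
          push_cast
          refine Finset.sum_congr rfl fun z' _ => ?_
          rw [Finset.card_image_of_injective _ (List.cons_injective)]
        rw [h1', Finset.sum_mul]
        calc ∑ z' ∈ univ.filter (fun z' => R z z'), ((chF R n z').card : ℝ) * m
            ≤ ∑ z' ∈ univ.filter (fun z' => R z z'), lam ^ n * f z' :=
              Finset.sum_le_sum fun z' _ => ih z'
          _ = lam ^ n * ∑ z' ∈ univ.filter (fun z' => R z z'), f z' := by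
              rw [Finset.mul_sum]
          _ ≤ lam ^ n * (lam * f z) := mul_le_mul_of_nonneg_left (hR z) (pow_nonneg hlam n)
          _ = lam ^ (n + 1) * f z := by ring

/-- the chains of length `n` -/
def wordsF (R : L → L → Prop) [DecidableRel R] : ℕ → Finset (List L)
  | 0 => {[]}
  | n + 1 => univ.biUnion (fun z => (chF R n z).image (List.cons z))

lemma mem_wordsF (R : L → L → Prop) [DecidableRel R] (n : ℕ) (l : List L) :
    l ∈ wordsF R n ↔ l.length = n ∧ List.IsChain R l := by
  cases n with
  | zero =>
    simp only [wordsF, Finset.mem_singleton]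
    constructor
    · rintro rfl; simp
    · rintro ⟨h, -⟩; exact List.length_eq_zero_iff.mp h
  | succ n =>
    simp only [wordsF, Finset.mem_biUnion, Finset.mem_univ, true_and, Finset.mem_image]
    constructor
    · rintro ⟨z, l', hl', rfl⟩
      rw [mem_chF] at hl'
      exact ⟨by simp [hl'.1], hl'.2⟩
    · rintro ⟨h1, h2⟩
      cases l with
      | nil => simp at h1
      | cons z' l' =>
        exact ⟨z', l', (mem_chF R n z' l').mpr ⟨by simpa using h1, h2⟩, rfl⟩

lemma wordsF_card_le (R : L → L → Prop) [DecidableRel R] (f : L → ℝ) (lam m F : ℝ) (hm : 0 < m)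
    (hf : ∀ z, m ≤ f z) (hF : ∀ z, f z ≤ F) (hlam : 1 ≤ lam) (hFm : m ≤ F)
    (hL : 1 ≤ Fintype.card L)
    (hR : ∀ z, ∑ z' ∈ univ.filter (fun z' => R z z'), f z' ≤ lam * f z) (n : ℕ) :
    ((wordsF R n).card : ℝ) ≤ (Fintype.card L : ℝ) * F / m * lam ^ n := by
  have hL' : (1 : ℝ) ≤ (Fintype.card L : ℝ) := by exact_mod_cast hL
  have hlam0 : 0 ≤ lam := by linarith
  cases n with
  | zero =>
    simp only [wordsF, Finset.card_singleton, Nat.cast_one, pow_zero, mul_one]
    rw [le_div_iff₀ hm, one_mul]
    nlinarith
  | succ n =>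
    have h2 : ((wordsF R (n + 1)).card : ℝ) ≤ ∑ z : L, ((chF R n z).card : ℝ) := by
      have h2 : (wordsF R (n + 1)).card ≤ ∑ z : L, ((chF R n z).image (List.cons z)).card :=
        Finset.card_biUnion_le
      have h3 : ∑ z : L, ((chF R n z).image (List.cons z)).card ≤ ∑ z : L, (chF R n z).card :=
        Finset.sum_le_sum fun z' _ => Finset.card_image_le
      exact_mod_cast h2.trans h3
    have h4 : ∀ z : L, ((chF R n z).card : ℝ) ≤ F / m * lam ^ (n + 1) := by
      intro z
      have h5 := chF_card_le R f lam m hf hlam0 hR n z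
      have h6 : ((chF R n z).card : ℝ) ≤ lam ^ n * f z / m := by
        rw [le_div_iff₀ hm]; exact h5
      refine h6.trans ?_
      have h7 : lam ^ n * f z / m ≤ lam ^ n * F / m := by
        apply div_le_div_of_nonneg_right _ hm.le
        exact mul_le_mul_of_nonneg_left (hF z) (pow_nonneg hlam0 n)
      refine h7.trans ?_
      have h8 : lam ^ n ≤ lam ^ (n + 1) := pow_le_pow_right₀ hlam (Nat.le_succ n)
      have h9 : 0 ≤ F / m := by
        apply div_nonneg _ hm.le
        linarith
      calc lam ^ n * F / m = F / m * lam ^ n := by ring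
        _ ≤ F / m * lam ^ (n + 1) := mul_le_mul_of_nonneg_left h8 h9
    calc ((wordsF R (n + 1)).card : ℝ) ≤ ∑ z : L, ((chF R n z).card : ℝ) := h2
      _ ≤ ∑ _z : L, F / m * lam ^ (n + 1) := Finset.sum_le_sum fun z _ => h4 z
      _ = (Fintype.card L : ℝ) * F / m * lam ^ (n + 1) := by
          rw [Finset.sum_const, Finset.card_univ, nsmul_eq_mul]; ring

end Chains

section Turns

variable {r : ℕ}

/-- `z z'` is allowed: reduced, and not a turn from `P` to `Q`. -/
def TR (P Q : Finset (Fin r × Bool)) (z z' : Fin r × Bool) : Prop :=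
  z' ≠ bar z ∧ ¬ (bar z ∈ P ∧ z' ∈ Q)

instance (P Q : Finset (Fin r × Bool)) : DecidableRel (TR P Q) := fun _ _ => by
  unfold TR; infer_instance

/-- the growth bound -/
noncomputable def lamr (r : ℕ) : ℝ := 2 * (r : ℝ) - 2 + 1 / ((r : ℝ) - 1)

lemma lamr_eq (hr : 3 ≤ r) : lamr r = (2 * (r : ℝ) - 2) + 2 / (2 * (r : ℝ) - 2) := by
  have h3 : (3 : ℝ) ≤ r := by exact_mod_cast hr
  have h1 : (r : ℝ) - 1 ≠ 0 := by linarith
  have h2 : 2 * (r : ℝ) - 2 ≠ 0 := by linarith
  rw [lamr]
  congr 1
  rw [div_eq_div_iff h1 h2]
  ring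

lemma sum_ite_card (D : Finset (Fin r × Bool)) (β : ℝ) :
    ∑ z : Fin r × Bool, (if z ∈ D then β else 1) = (2 * (r : ℝ) - D.card) + D.card * β := by
  have h1 : ∀ z : Fin r × Bool, (if z ∈ D then β else 1) = 1 + (if z ∈ D then (β - 1) else 0) := by
    intro z; split_ifs <;> ring
  rw [Finset.sum_congr rfl (fun z _ => h1 z), Finset.sum_add_distrib, Finset.sum_ite_mem,
    Finset.univ_inter, Finset.sum_const, Finset.sum_const, Finset.card_univ]
  simp only [Fintype.card_prod, Fintype.card_fin, Fintype.card_bool, nsmul_eq_mul]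
  push_cast
  ring

lemma bar_inj {α : Type*} {x y : α × Bool} (h : bar x = bar y) : x = y := by
  rw [← bar_bar x, h, bar_bar]

/-- For `|P| ≤ |Q|`, `|P| ≥ 2`. -/
lemma count_two (hr : 3 ≤ r) (P Q : Finset (Fin r × Bool)) (hdisj : Disjoint P Q)
    (hcard : 2 * r - 1 ≤ P.card + Q.card) (hPQ : P.card ≤ Q.card) (hP : 2 ≤ P.card) :
    ∀ z, ∑ z' ∈ univ.filter (fun z' => TR P Q z z'),
      (if z' ∈ P.image bar then (P.card : ℝ) / (2 * (r : ℝ) - 2) else 1) ≤
      lamr r * (if z ∈ P.image bar then (P.card : ℝ) / (2 * (r : ℝ) - 2) else 1) := by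
  intro z
  have h3 : (3 : ℝ) ≤ r := by exact_mod_cast hr
  set N : ℝ := 2 * (r : ℝ) - 2 with hN
  have hN4 : (4 : ℝ) ≤ N := by rw [hN]; linarith
  have hNpos : 0 < N := by linarith
  have hcardu : (P ∪ Q).card ≤ 2 * r := by
    have := Finset.card_le_univ (P ∪ Q)
    simpa [Fintype.card_prod, mul_comm] using this
  have hcu : (P ∪ Q).card = P.card + Q.card := Finset.card_union_of_disjoint hdisj
  have hk : P.card ≤ r := by omega
  have hkR : (P.card : ℝ) ≤ r := by exact_mod_cast hk
  have hk2 : (2 : ℝ) ≤ (P.card : ℝ) := by exact_mod_cast hP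
  set k : ℝ := (P.card : ℝ) with hkdef
  have hβ0 : 0 ≤ k / N := div_nonneg (by linarith) hNpos.le
  have hβ1 : k / N ≤ 1 := by
    rw [div_le_one hNpos, hN]; linarith
  have hDcard : (P.image bar).card = P.card :=
    Finset.card_image_of_injective _ (fun x y h => bar_inj h)
  have hlam := lamr_eq hr
  rw [← hN] at hlam
  by_cases hz : z ∈ P.image bar
  · -- few successors
    rw [if_pos hz]
    obtain ⟨p, hp, rfl⟩ := Finset.mem_image.mp hz
    have hsub : univ.filter (fun z' => TR P Q (bar p) z') ⊆ (Qᶜ).erase p := by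
      intro z' hz'
      rw [Finset.mem_filter] at hz'
      obtain ⟨-, h1, h2⟩ := hz'
      rw [bar_bar] at h1 h2
      rw [Finset.mem_erase, Finset.mem_compl]
      exact ⟨h1, fun h => h2 ⟨hp, h⟩⟩
    have hcc : ((Qᶜ).erase p).card ≤ P.card := by
      rw [Finset.card_erase_of_mem (by
        rw [Finset.mem_compl]; exact Finset.disjoint_left.mp hdisj hp)]
      rw [Finset.card_compl]
      simp only [Fintype.card_prod, Fintype.card_fin, Fintype.card_bool]
      omega
    have h1 : ∑ z' ∈ univ.filter (fun z' => TR P Q (bar p) z'),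
        (if z' ∈ P.image bar then k / N else 1) ≤
        ∑ z' ∈ univ.filter (fun z' => TR P Q (bar p) z'), (1 : ℝ) := by
      apply Finset.sum_le_sum
      intro z' _
      split_ifs
      · exact hβ1
      · exact le_refl _
    refine h1.trans ?_
    rw [Finset.sum_const, nsmul_eq_mul, mul_one]
    have h2 : ((univ.filter (fun z' => TR P Q (bar p) z')).card : ℝ) ≤ k := by
      rw [hkdef]
      exact Nat.cast_le.mpr ((Finset.card_le_card hsub).trans hcc)
    refine h2.trans ?_
    rw [hlam]
    have h3 : (N + 2 / N) * (k / N) = k + 2 * k / (N * N) := by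
      field_simp
    rw [h3]
    have : 0 ≤ 2 * k / (N * N) := by positivity
    linarith
  · rw [if_neg hz, mul_one]
    have hsub : univ.filter (fun z' => TR P Q z z') ⊆ univ.erase (bar z) := by
      intro z' hz'
      rw [Finset.mem_filter] at hz'
      rw [Finset.mem_erase]
      exact ⟨hz'.2.1, Finset.mem_univ _⟩
    have hnn : ∀ z' : Fin r × Bool, 0 ≤ (if z' ∈ P.image bar then k / N else (1 : ℝ)) := by
      intro z'; split_ifs
      · exact hβ0
      · exact zero_le_one
    have h1 := Finset.sum_le_sum_of_subset_of_nonneg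
      (f := fun z' => (if z' ∈ P.image bar then k / N else (1 : ℝ))) hsub
      (fun z' _ _ => hnn z')
    refine h1.trans ?_
    have h2 : ∑ z' ∈ univ.erase (bar z), (if z' ∈ P.image bar then k / N else (1 : ℝ)) =
        (∑ z' : Fin r × Bool, (if z' ∈ P.image bar then k / N else (1 : ℝ))) -
        (if bar z ∈ P.image bar then k / N else (1 : ℝ)) := by
      rw [← Finset.add_sum_erase univ _ (Finset.mem_univ (bar z))]
      ring
    rw [h2, sum_ite_card, hDcard]
    have h3 : k / N ≤ (if bar z ∈ P.image bar then k / N else (1 : ℝ)) := by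
      split_ifs
      · exact le_refl _
      · exact hβ1
    have h4 : (2 * (r : ℝ) - k) + k * (k / N) - k / N ≤ lamr r := by
      rw [hlam]
      have e : (2 * (r : ℝ) - k) + k * (k / N) - k / N = N + 2 - k + (k * k - k) / N := by
        rw [hN]; ring
      rw [e]
      have h5 : (k * k - k) / N = 2 / N + (k - 2) * (k + 1) / N := by
        field_simp
        ring
      have h6 : (k - 2) * (k + 1) / N ≤ k - 2 := by
        rw [div_le_iff₀ hNpos]
        apply mul_le_mul_of_nonneg_left _ (by linarith)
        rw [hN]; linarith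
      rw [h5]
      linarith
    linarith

/-- For `|P| = 1`. -/
lemma count_one (hr : 3 ≤ r) (p : Fin r × Bool) (Q : Finset (Fin r × Bool)) (hp : p ∉ Q)
    (hcard : 2 * r - 2 ≤ Q.card) :
    ∀ z, ∑ z' ∈ univ.filter (fun z' => TR {p} Q z z'),
      (if z' = p then 1 + 1 / (2 * (r : ℝ) - 2) else
        (if z' = bar p then 1 / (2 * (r : ℝ) - 2) else 1)) ≤
      lamr r * (if z = p then 1 + 1 / (2 * (r : ℝ) - 2) else
        (if z = bar p then 1 / (2 * (r : ℝ) - 2) else 1)) := by
  intro z
  have h3 : (3 : ℝ) ≤ r := by exact_mod_cast hr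
  set N : ℝ := 2 * (r : ℝ) - 2 with hN
  have hN4 : (4 : ℝ) ≤ N := by rw [hN]; linarith
  have hNpos : 0 < N := by linarith
  have hlam := lamr_eq hr
  rw [← hN] at hlam
  have hpp : bar p ≠ p := by
    intro h
    have := congrArg Prod.snd h
    simp [bar] at this
  set f : Fin r × Bool → ℝ := fun z' => (if z' = p then 1 + 1 / N else
        (if z' = bar p then 1 / N else 1)) with hf
  have hNi : 0 < 1 / N := by positivity
  have hNi1 : 1 / N ≤ 1 := by
    rw [div_le_one hNpos]; linarith
  have hnn : ∀ z', 0 ≤ f z' := by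
    intro z'
    simp only [hf]
    split_ifs
    · linarith
    · linarith
    · linarith
  have hsum : ∑ z' : Fin r × Bool, f z' = N + 1 + 2 / N := by
    have e : ∀ z' : Fin r × Bool, f z' = 1 + (if z' = p then 1 / N else 0) +
        (if z' = bar p then (1 / N - 1) else 0) := by
      intro z'
      simp only [hf]
      by_cases h1 : z' = p
      · rw [if_pos h1, if_pos h1, if_neg (by rw [h1]; exact fun h => hpp h.symm)]
        ring
      · rw [if_neg h1, if_neg h1]
        by_cases h2 : z' = bar p
        · rw [if_pos h2, if_pos h2]; ring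
        · rw [if_neg h2, if_neg h2]; ring
    rw [Finset.sum_congr rfl (fun z' _ => e z'), Finset.sum_add_distrib, Finset.sum_add_distrib,
      Finset.sum_ite_eq' univ p, Finset.sum_ite_eq' univ (bar p), Finset.sum_const,
      Finset.card_univ]
    simp only [Fintype.card_prod, Fintype.card_fin, Fintype.card_bool, nsmul_eq_mul,
      Finset.mem_univ, if_true]
    push_cast
    rw [hN]; ring
  have herase : ∀ y, ∑ z' ∈ univ.erase y, f z' = N + 1 + 2 / N - f y := by
    intro y
    rw [← hsum, ← Finset.add_sum_erase univ f (Finset.mem_univ y)]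
    ring
  have hgen : ∑ z' ∈ univ.filter (fun z' => TR {p} Q z z'), f z' ≤ N + 1 + 2 / N - f (bar z) := by
    rw [← herase]
    apply Finset.sum_le_sum_of_subset_of_nonneg
    · intro z' hz'
      rw [Finset.mem_filter] at hz'
      rw [Finset.mem_erase]
      exact ⟨hz'.2.1, Finset.mem_univ _⟩
    · intro z' _ _; exact hnn z'
  change ∑ z' ∈ univ.filter (fun z' => TR {p} Q z z'), f z' ≤ lamr r * f z
  by_cases hz : z = p
  · rw [hz] at hgen ⊢
    have e1 : f (bar p) = 1 / N := by simp only [hf]; rw [if_neg hpp, if_true]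
    have e2 : f p = 1 + 1 / N := by simp only [hf]; rw [if_true]
    rw [e1] at hgen
    rw [e2, hlam]
    refine hgen.trans ?_
    have e3 : (N + 2 / N) * (1 + 1 / N) = N + 1 + 2 / N + 2 / (N * N) := by
      field_simp
      ring
    rw [e3]
    have : 0 ≤ 2 / (N * N) := by positivity
    linarith
  · by_cases hz2 : z = bar p
    · rw [hz2]
      have e2 : f (bar p) = 1 / N := by simp only [hf]; rw [if_neg hpp, if_true]
      rw [e2]
      have hsub : univ.filter (fun z' => TR {p} Q (bar p) z') ⊆ (Qᶜ).erase p := by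
        intro z' hz'
        rw [Finset.mem_filter] at hz'
        obtain ⟨-, h1, h2⟩ := hz'
        rw [bar_bar] at h1 h2
        rw [Finset.mem_erase, Finset.mem_compl]
        exact ⟨h1, fun h => h2 ⟨Finset.mem_singleton_self _, h⟩⟩
      have hcc : ((Qᶜ).erase p).card ≤ 1 := by
        rw [Finset.card_erase_of_mem (by rw [Finset.mem_compl]; exact hp)]
        rw [Finset.card_compl]
        simp only [Fintype.card_prod, Fintype.card_fin, Fintype.card_bool]
        omega
      have h1 : ∑ z' ∈ univ.filter (fun z' => TR {p} Q (bar p) z'), f z' ≤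
          ∑ z' ∈ univ.filter (fun z' => TR {p} Q (bar p) z'), (1 : ℝ) := by
        apply Finset.sum_le_sum
        intro z' hz'
        have hne : z' ≠ p := by
          have := hsub hz'
          rw [Finset.mem_erase] at this
          exact this.1
        simp only [hf]
        rw [if_neg hne]
        split_ifs
        · exact hNi1
        · exact le_refl _
      refine h1.trans ?_
      rw [Finset.sum_const, nsmul_eq_mul, mul_one]
      have h2 : ((univ.filter (fun z' => TR {p} Q (bar p) z')).card : ℝ) ≤ 1 := by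
        exact_mod_cast (Finset.card_le_card hsub).trans hcc
      refine h2.trans ?_
      rw [hlam]
      have h3 : (N + 2 / N) * (1 / N) = 1 + 2 / (N * N) := by
        field_simp
      rw [h3]
      have : 0 ≤ 2 / (N * N) := by positivity
      linarith
    · have e1 : f (bar z) = 1 := by
        simp only [hf]
        rw [if_neg (fun h => hz2 (by rw [← h, bar_bar])),
          if_neg (fun h => hz (bar_inj h))]
      have e2 : f z = 1 := by
        simp only [hf]
        rw [if_neg hz, if_neg hz2]
      rw [e1] at hgen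
      rw [e2, hlam]
      linarith

lemma lamr_ge (hr : 3 ≤ r) : 4 ≤ lamr r := by
  have h3 : (3 : ℝ) ≤ r := by exact_mod_cast hr
  rw [lamr]
  have : 0 ≤ 1 / ((r : ℝ) - 1) := by
    apply div_nonneg zero_le_one
    linarith
  linarith

lemma count_le_of_le (hr : 3 ≤ r) (P Q : Finset (Fin r × Bool)) (hdisj : Disjoint P Q)
    (hcard : 2 * r - 1 ≤ P.card + Q.card) (hPQ : P.card ≤ Q.card) (hP : P.Nonempty) (n : ℕ) :
    ((wordsF (TR P Q) n).card : ℝ) ≤ 8 * (r : ℝ) ^ 2 * lamr r ^ n := by
  have h3 : (3 : ℝ) ≤ r := by exact_mod_cast hr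
  have hlam := lamr_ge hr
  have hNpos : 0 < 2 * (r : ℝ) - 2 := by linarith
  have hcardL : 1 ≤ Fintype.card (Fin r × Bool) := by
    simp only [Fintype.card_prod, Fintype.card_fin, Fintype.card_bool]; omega
  have hfin : (Fintype.card (Fin r × Bool) : ℝ) = 2 * r := by
    simp only [Fintype.card_prod, Fintype.card_fin, Fintype.card_bool]; push_cast; ring
  have hmain : ∀ F : ℝ, F ≤ 2 → (Fintype.card (Fin r × Bool) : ℝ) * F / (1 / (2 * (r : ℝ) - 2)) *
      lamr r ^ n ≤ 8 * (r : ℝ) ^ 2 * lamr r ^ n := by
    intro F hF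
    apply mul_le_mul_of_nonneg_right _ (by positivity)
    rw [hfin, div_div_eq_mul_div, div_one]
    have : 2 * (r : ℝ) * F * (2 * (r : ℝ) - 2) ≤ 2 * (r : ℝ) * 2 * (2 * (r : ℝ) - 2) := by
      apply mul_le_mul_of_nonneg_right _ hNpos.le
      apply mul_le_mul_of_nonneg_left hF (by linarith)
    nlinarith
  rcases Nat.lt_or_ge P.card 2 with h1 | h2
  · have h1' : P.card = 1 := by
      have := hP.card_pos
      omega
    obtain ⟨p, rfl⟩ := Finset.card_eq_one.mp h1'
    have hp : p ∉ Q := Finset.disjoint_singleton_left.mp hdisj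
    have hc := count_one hr p Q hp (by rw [Finset.card_singleton] at hcard; omega)
    have hN1 : 1 / (2 * (r : ℝ) - 2) ≤ 1 := by
      rw [div_le_one hNpos]; linarith
    have hN0 : 0 < 1 / (2 * (r : ℝ) - 2) := by positivity
    refine (wordsF_card_le (TR {p} Q) _ (lamr r) (1 / (2 * (r : ℝ) - 2)) 2 hN0 ?_ ?_ (by linarith)
      (by linarith) hcardL hc n).trans (hmain 2 le_rfl)
    · intro z
      split_ifs <;> linarith
    · intro z
      split_ifs <;> linarith
  · have hc := count_two hr P Q hdisj hcard hPQ h2
    have hk2 : (2 : ℝ) ≤ (P.card : ℝ) := by exact_mod_cast h2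
    have hcardu : (P ∪ Q).card ≤ 2 * r := by
      have := Finset.card_le_univ (P ∪ Q)
      simpa [Fintype.card_prod, mul_comm] using this
    have hcu : (P ∪ Q).card = P.card + Q.card := Finset.card_union_of_disjoint hdisj
    have hk : P.card ≤ r := by omega
    have hkR : (P.card : ℝ) ≤ r := by exact_mod_cast hk
    have hN1 : 1 / (2 * (r : ℝ) - 2) ≤ 1 := by
      rw [div_le_one hNpos]; linarith
    have hN0 : 0 < 1 / (2 * (r : ℝ) - 2) := by positivity
    refine (wordsF_card_le (TR P Q) _ (lamr r) (1 / (2 * (r : ℝ) - 2)) 2 hN0 ?_ ?_ (by linarith)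
      (by linarith) hcardL hc n).trans (hmain 2 le_rfl)
    · intro z
      split_ifs
      · apply div_le_div_of_nonneg_right _ hNpos.le
        linarith
      · exact hN1
    · intro z
      split_ifs
      · have : (P.card : ℝ) / (2 * (r : ℝ) - 2) ≤ 1 := by
          rw [div_le_one hNpos]; linarith
        linarith
      · norm_num

lemma invRev_chain (P Q : Finset (Fin r × Bool)) (l : List (Fin r × Bool))
    (h : List.IsChain (TR P Q) l) : List.IsChain (TR Q P) (invRev l) := by
  rw [invRev, List.isChain_reverse, List.isChain_map]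
  refine List.IsChain.imp ?_ h
  intro z z' ⟨h1, h2⟩
  refine ⟨?_, ?_⟩
  · intro hc
    apply h1
    have : bar z = bar (bar z') := hc
    rw [bar_bar] at this
    exact this.symm
  · rintro ⟨h3, h4⟩
    apply h2
    have e : bar (bar z') = z' := bar_bar z'
    exact ⟨h4, by rw [← e]; exact h3⟩

/-- The number of words of length `n` avoiding the turns from `P` to `Q`. -/
theorem count_le (hr : 3 ≤ r) (P Q : Finset (Fin r × Bool)) (hdisj : Disjoint P Q)
    (hcard : 2 * r - 1 ≤ P.card + Q.card) (hP : P.Nonempty) (hQ : Q.Nonempty) (n : ℕ) :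
    ((wordsF (TR P Q) n).card : ℝ) ≤ 8 * (r : ℝ) ^ 2 * lamr r ^ n := by
  rcases le_total P.card Q.card with h | h
  · exact count_le_of_le hr P Q hdisj hcard h hP n
  · have h1 : (wordsF (TR P Q) n).card ≤ (wordsF (TR Q P) n).card := by
      apply Finset.card_le_card_of_injOn invRev
      · intro l hl
        rw [Finset.mem_coe, mem_wordsF] at hl ⊢
        exact ⟨by rw [invRev_length]; exact hl.1, invRev_chain P Q l hl.2⟩
      · intro x _ y _ hxy
        exact invRev_injective hxy
    refine le_trans (by exact_mod_cast h1) (count_le_of_le hr Q P hdisj.symm (by omega) h hQ n)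

end Turns

end Pool.Agent.Block637
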